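import Pool.Agent.J6H36.BSV.Defs2

/-!
# Module P1X: a basis over `K[t]` of the integral closure
-/

set_option autoImplicit false

universe u

namespace Pool.Agent.J6H3.BSV

open Polynomial IntermediateField
open scoped IntermediateField.algebraAdjoinAdjoin

/-- **P1X** -/
theorem t_P1X : Pool.Agent.J6H36.BSV.S_P1X.{u} := by
  intro K F _ _ _ t ht _ _
  have hinj : Function.Injective (aeval t : K[X] →ₐ[K] F) := transcendental_iff_injective.1 ht
  have hr : (aeval t : K[X] →ₐ[K] F).range = Algebra.adjoin K {t} :=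
    (Algebra.adjoin_singleton_eq_range_aeval K t).symm
  have hmem : ∀ p : K[X], aeval t p ∈ Algebra.adjoin K ({t} : Set F) := fun p => by
    rw [← hr]; exact ⟨p, rfl⟩
  have hsurj : ∀ a : Algebra.adjoin K ({t} : Set F), ∃ p : K[X], aeval t p = (a : F) := fun a => by
    have h : (a : F) ∈ (aeval t : K[X] →ₐ[K] F).range := hr.symm ▸ a.2
    exact h
  let φ : K[X] →+* Algebra.adjoin K ({t} : Set F) :=
    ((aeval t : K[X] →ₐ[K] F).codRestrict (Algebra.adjoin K {t}) hmem).toRingHom
  have hφ : ∀ p, ((φ p : Algebra.adjoin K ({t} : Set F)) : F) = aeval t p := fun p => rfl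
  have hφs : Function.Surjective φ := fun a => by
    obtain ⟨p, hp⟩ := hsurj a
    exact ⟨p, Subtype.ext hp⟩
  have : IsPrincipalIdealRing (Algebra.adjoin K ({t} : Set F)) :=
    IsPrincipalIdealRing.of_surjective φ hφs
  let C := integralClosure (Algebra.adjoin K ({t} : Set F)) F
  have : Module.Free (Algebra.adjoin K ({t} : Set F)) C :=
    IsIntegralClosure.module_free (Algebra.adjoin K ({t} : Set F)) K⟮t⟯ F C
  have : IsNoetherian (Algebra.adjoin K ({t} : Set F)) C :=
    IsIntegralClosure.isNoetherian (Algebra.adjoin K ({t} : Set F)) K⟮t⟯ F C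
  have : Module.Finite (Algebra.adjoin K ({t} : Set F)) C := Module.IsNoetherian.finite _ _
  let bs := Module.finBasis (Algebra.adjoin K ({t} : Set F)) C
  refine ⟨_, fun i => (bs i : F), ⟨fun i => (bs i).2, ?_, ?_⟩⟩
  · intro y hy
    choose cc hcc using fun i => hsurj (bs.repr ⟨y, hy⟩ i)
    refine ⟨cc, ?_⟩
    have h1 := congrArg (fun z : C => (z : F)) (bs.sum_repr ⟨y, hy⟩)
    simp only [AddSubmonoidClass.coe_finsetSum] at h1
    rw [← h1]
    refine Finset.sum_congr rfl fun i _ => ?_
    rw [hcc]
    rfl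
  · intro c hc
    have h1 : ∑ i, φ (c i) • bs i = 0 := by
      apply Subtype.ext
      rw [AddSubmonoidClass.coe_finsetSum]
      exact hc
    have h2 := Fintype.linearIndependent_iff.1 bs.linearIndependent (fun i => φ (c i)) h1
    funext i
    have h3 := congrArg (fun z : Algebra.adjoin K ({t} : Set F) => (z : F)) (h2 i)
    simp only [hφ] at h3
    exact hinj (by rw [h3]; simp)

end Pool.Agent.J6H3.BSV
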